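import Mathlib
import Pool.Agent.Results.MP_19f0f5_gt.AllDimensionsAllPoints

/-!
# Two point sources never determine planar convex bodies, so `N ≥ 3`

For all distinct points `x₁`, `x₂` of the plane there are two different convex bodies with nonempty
interior that have the same chord functions at `x₁` and at `x₂`. Hence no set of at most two points
determines convex bodies, and every `k` such that all `k`-point sets without three collinear points
determine convex bodies satisfies `3 ≤ k`. This refutes the conjecture `N = 2`.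
-/

set_option autoImplicit false

open Set

namespace Pool.Agent.Results.MP_e55421_gt.TwoPointsFail

/-- The Euclidean plane. -/
abbrev Plane : Type := EuclideanSpace ℝ (Fin 2)

/-- A convex body: a compact convex set with nonempty interior. -/
def IsBody (K : Set Plane) : Prop := Convex ℝ K ∧ IsCompact K ∧ (interior K).Nonempty

/-- The unit vector that makes the angle `θ` with the first coordinate axis. -/
noncomputable def unitVec (θ : ℝ) : Plane := !₂[Real.cos θ, Real.sin θ]

/-- The chord function of `K` at `x`: the length (diameter) of the intersection of `K` with the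
line through `x` at angle `θ` to the first coordinate axis, and `0` if the intersection is empty. -/
noncomputable def chordFn (K : Set Plane) (x : Plane) (θ : ℝ) : ℝ :=
  Metric.diam (K ∩ {p | ∃ t : ℝ, p = x + t • unitVec θ})

/-- `P` determines convex bodies: two convex bodies with the same chord function at every point of
`P` are equal. -/
def Determines (P : Set Plane) : Prop :=
  ∀ K L : Set Plane, IsBody K → IsBody L →
    (∀ x ∈ P, ∀ θ ∈ Ico (0:ℝ) Real.pi, chordFn K x θ = chordFn L x θ) → K = L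

/-- Every set of `k` distinct points with no three collinear determines convex bodies. The number
`N` of the problem is the least `k ≥ 1` with `Suffices k`. -/
def Suffices (k : ℕ) : Prop :=
  ∀ P : Set Plane, P.Finite → P.ncard = k →
    (∀ x ∈ P, ∀ y ∈ P, ∀ z ∈ P, x ≠ y → y ≠ z → x ≠ z → ¬ Collinear ℝ {x, y, z}) →
    Determines P

theorem pair (x₁ x₂ : Plane) (hx : x₁ ≠ x₂) (ε : ℝ) (hε : 0 < ε) :
    ∃ K L : Set Plane, IsBody K ∧ IsBody L ∧ K ≠ L ∧ x₁ ∉ K ∪ L ∧ x₂ ∉ K ∪ L ∧
      (∀ p ∈ K ∪ L, ∃ q ∈ line[ℝ, x₁, x₂], dist p q ≤ ε) ∧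
      (∀ x ∈ ({x₁, x₂} : Set Plane), ∀ θ : ℝ, chordFn K x θ = chordFn L x θ) := by
  obtain ⟨K, L, -, -, h⟩ :=
    Pool.Agent.Results.MP_19f0f5_gt.AllDimensionsAllPoints.result Plane (by simp) x₁ x₂ hx
  obtain ⟨hK, hL, hne, h1, h2, h3⟩ := h ε hε
  refine ⟨K ε, L ε, ⟨hK.1, hK.2.1, hK.2.2.2.2.mono inter_subset_right⟩,
    ⟨hL.1, hL.2.1, hL.2.2.2.2.mono inter_subset_right⟩, hne, ?_, ?_, h3, ?_⟩
  · rintro (h | h)
    · exact hK.2.2.1 h
    · exact hL.2.2.1 h
  · rintro (h | h)
    · exact hK.2.2.2.1 h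
    · exact hL.2.2.2.1 h
  · rintro x (rfl | rfl) θ
    · exact h1 (unitVec θ)
    · exact h2 (unitVec θ)

/-- For all distinct points `x₁`, `x₂` and every `ε > 0` there are two different convex bodies,
containing neither point and lying within `ε` of the line through `x₁` and `x₂`, with the same chord
functions at `x₁` and at `x₂`; so no set of at most two points determines convex bodies, and every
`k` for which all `k`-point sets with no three collinear points determine convex bodies is at
least `3`. -/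
theorem result :
    (∀ x₁ x₂ : Plane, x₁ ≠ x₂ → ∀ ε : ℝ, 0 < ε →
      ∃ K L : Set Plane, IsBody K ∧ IsBody L ∧ K ≠ L ∧ x₁ ∉ K ∪ L ∧ x₂ ∉ K ∪ L ∧
        (∀ p ∈ K ∪ L, ∃ q ∈ line[ℝ, x₁, x₂], dist p q ≤ ε) ∧
        (∀ x ∈ ({x₁, x₂} : Set Plane), ∀ θ ∈ Ico (0:ℝ) Real.pi, chordFn K x θ = chordFn L x θ)) ∧
    (∀ P : Set Plane, P.Finite → P.ncard ≤ 2 → ¬ Determines P) ∧
    (∀ k : ℕ, Suffices k → 3 ≤ k) := by
  have key : ∀ P : Set Plane, P.Finite → P.ncard ≤ 2 → ¬ Determines P := by
    intro P hP hc hD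
    have : ∃ x₁ x₂ : Plane, x₁ ≠ x₂ ∧ P ⊆ {x₁, x₂} := by
      have hc' : P.ncard = 0 ∨ P.ncard = 1 ∨ P.ncard = 2 := by omega
      rcases hc' with h | h | h
      · rw [Set.ncard_eq_zero hP] at h
        obtain ⟨x, y, hxy⟩ := exists_pair_ne Plane
        exact ⟨x, y, hxy, by rw [h]; exact empty_subset _⟩
      · obtain ⟨x, rfl⟩ := Set.ncard_eq_one.1 h
        obtain ⟨y, hy⟩ := exists_ne x
        exact ⟨x, y, hy.symm, by intro z hz; left; exact hz⟩
      · obtain ⟨x, y, hxy, rfl⟩ := Set.ncard_eq_two.1 h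
        exact ⟨x, y, hxy, subset_rfl⟩
    obtain ⟨x₁, x₂, hx, hsub⟩ := this
    obtain ⟨K, L, hK, hL, hne, -, -, -, h⟩ := pair x₁ x₂ hx 1 one_pos
    exact hne (hD K L hK hL fun x hx θ _ => h x (hsub hx) θ)
  refine ⟨fun x₁ x₂ hx ε hε => ?_, key, ?_⟩
  · obtain ⟨K, L, hK, hL, hne, a, b, c, h⟩ := pair x₁ x₂ hx ε hε
    exact ⟨K, L, hK, hL, hne, a, b, c, fun x hx θ _ => h x hx θ⟩
  · intro k hk
    by_contra hlt
    have hk2 : k ≤ 2 := by omega
    -- a set of `k ≤ 2` points
    obtain ⟨x, y, hxy⟩ := exists_pair_ne Plane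
    have : ∃ P : Set Plane, P.Finite ∧ P.ncard = k := by
      have hc' : k = 0 ∨ k = 1 ∨ k = 2 := by omega
      rcases hc' with rfl | rfl | rfl
      · exact ⟨∅, finite_empty, by simp⟩
      · exact ⟨{x}, finite_singleton x, by simp⟩
      · exact ⟨{x, y}, (finite_singleton y).insert x, Set.ncard_pair hxy⟩
    obtain ⟨P, hP, hPk⟩ := this
    refine key P hP (by omega) (hk P hP hPk ?_)
    intro a ha b hb c hc hab hbc hac
    exfalso
    have h3 : ({a, b, c} : Set Plane).ncard ≤ P.ncard := by
      apply Set.ncard_le_ncard _ hP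
      rintro z (rfl | rfl | rfl) <;> assumption
    have h4 : ({a, b, c} : Set Plane).ncard = 3 := by
      rw [Set.ncard_eq_three]
      exact ⟨a, b, c, hab, hac, hbc, rfl⟩
    omega

end Pool.Agent.Results.MP_e55421_gt.TwoPointsFail
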